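import Pool.Agent.Y262.QE.Stm

/-!
Project QE: the local Weyl estimate.
-/

set_option autoImplicit false

open Set Filter Topology MeasureTheory
open scoped Real ContDiff ComplexConjugate

namespace Pool.Agent.Y93.QE

open Pool.Agent.Y262.QE

/-- the covector is controlled by its gradient -/
theorem grd_le (A : ℂ →L[ℝ] ℂ) (hA : A.det ≠ 0) (P : ℂ →L[ℝ] ℝ) : ‖P‖ ≤ ‖grd A P‖ * ‖A‖ := by
  refine P.opNorm_le_bound (mul_nonneg (norm_nonneg _) (norm_nonneg _)) fun v => ?_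
  have h1 : A.inverse (A v) = v := by
    have h2 : (A.toContinuousLinearEquivOfDetNeZero hA : ℂ →L[ℝ] ℂ) = A :=
      A.coe_toContinuousLinearEquivOfDetNeZero hA
    have h3 : A.inverse = ((A.toContinuousLinearEquivOfDetNeZero hA).symm : ℂ →L[ℝ] ℂ) := by
      rw [← ContinuousLinearMap.inverse_equiv, h2]
    rw [h3]
    have h4 : A v = A.toContinuousLinearEquivOfDetNeZero hA v := rfl
    rw [h4]
    exact (A.toContinuousLinearEquivOfDetNeZero hA).symm_apply_apply v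
  have h5 : A v = (A v).re • (1 : ℂ) + (A v).im • Complex.I := by
    apply Complex.ext <;> simp
  have h6 : P v = (A v).re * (grd A P).re + (A v).im * (grd A P).im := by
    conv_lhs => rw [← h1, h5, map_add, map_smul, map_smul, map_add, map_smul, map_smul]
    rfl
  have h7 : P v = inner ℝ (A v) (grd A P) := by
    rw [h6, Complex.inner]
    simp only [Complex.mul_re, Complex.conj_re, Complex.conj_im]
    ring
  rw [h7]
  refine (norm_inner_le_norm _ _).trans ?_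
  calc ‖A v‖ * ‖grd A P‖ ≤ (‖A‖ * ‖v‖) * ‖grd A P‖ :=
        mul_le_mul_of_nonneg_right (A.le_opNorm v) (norm_nonneg _)
    _ = ‖grd A P‖ * ‖A‖ * ‖v‖ := by ring

theorem sq_closed (c : ℂ) (r : ℝ) : IsClosed (Sq c r) := by
  have h1 : IsClosed {z : ℂ | |z.re - c.re| ≤ r} :=
    isClosed_le ((Complex.continuous_re.sub continuous_const).abs) continuous_const
  have h2 : IsClosed {z : ℂ | |z.im - c.im| ≤ r} :=
    isClosed_le ((Complex.continuous_im.sub continuous_const).abs) continuous_const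
  exact h1.inter h2

theorem sq_sub_ball (c : ℂ) (r : ℝ) : Sq c r ⊆ Metric.closedBall c (2 * r) := by
  intro z hz
  rw [Metric.mem_closedBall, Complex.dist_eq]
  have h1 := Complex.norm_le_abs_re_add_abs_im (z - c)
  have h2 : |(z - c).re| ≤ r := by rw [Complex.sub_re]; exact hz.1
  have h3 : |(z - c).im| ≤ r := by rw [Complex.sub_im]; exact hz.2
  linarith

theorem sq_cpt (c : ℂ) (r : ℝ) : IsCompact (Sq c r) :=
  Metric.isCompact_of_isClosed_isBounded (sq_closed c r)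
    (Metric.isBounded_closedBall.subset (sq_sub_ball c r))

theorem sq_exists {T : Set ℂ} (hT : IsOpen T) {c : ℂ} (hc : c ∈ T) :
    ∃ r : ℝ, 0 < r ∧ Sq c r ⊆ T := by
  obtain ⟨ρ, hρ, h⟩ := Metric.isOpen_iff.1 hT c hc
  refine ⟨ρ / 4, by linarith, (sq_sub_ball c (ρ / 4)).trans (fun z hz => h ?_)⟩
  rw [Metric.mem_closedBall] at hz
  rw [Metric.mem_ball]
  linarith

/-- the open square -/
theorem osq_open (c : ℂ) (r : ℝ) : IsOpen {z : ℂ | |z.re - c.re| < r ∧ |z.im - c.im| < r} := by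
  have h1 : IsOpen {z : ℂ | |z.re - c.re| < r} :=
    isOpen_lt ((Complex.continuous_re.sub continuous_const).abs) continuous_const
  have h2 : IsOpen {z : ℂ | |z.im - c.im| < r} :=
    isOpen_lt ((Complex.continuous_im.sub continuous_const).abs) continuous_const
  exact h1.inter h2

theorem w1 : StInt → StGr → StFin → StSub → StW1 := by
  intro hInt hGr hFin hSub M _ _ _ _ μ D hD p
  obtain ⟨hfin, -⟩ := hFin M μ D hD
  obtain ⟨hG1, hG2, -⟩ := hGr M μ D hD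
  obtain ⟨i, hi⟩ := hD.cover p
  have hcT : D.φ i p ∈ D.T i := ⟨p, hi, rfl⟩
  obtain ⟨r, hr, hrT⟩ := sq_exists (hD.openT i) hcT
  obtain ⟨c, hc⟩ : ∃ c, c = D.φ i p := ⟨_, rfl⟩
  rw [← hc] at hcT hrT
  have hcSq : c ∈ Sq c r := by
    constructor
    · rw [sub_self, abs_zero]; exact hr.le
    · rw [sub_self, abs_zero]; exact hr.le
  have hφψ : ∀ z ∈ D.T i, D.ψ i z ∈ D.U i ∧ D.φ i (D.ψ i z) = z := by
    rintro z ⟨x, hx, rfl⟩
    rw [hD.left i x hx]
    exact ⟨hx, rfl⟩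
  -- the compact set
  obtain ⟨Kc, hKc⟩ : ∃ Kc : Set M, Kc = D.ψ i '' Sq c r := ⟨_, rfl⟩
  have hKcc : IsCompact Kc := by
    rw [hKc]
    exact (sq_cpt c r).image_of_continuousOn ((hD.contψ i).mono hrT)
  have hKcm : MeasurableSet Kc := hKcc.measurableSet
  have hKcU : Kc ⊆ D.U i := by
    rw [hKc]
    rintro x ⟨z, hz, rfl⟩
    exact (hφψ z (hrT hz)).1
  have hKφ : D.φ i '' Kc = Sq c r := by
    rw [hKc]
    apply Subset.antisymm
    · rintro z ⟨x, ⟨y, hy, rfl⟩, rfl⟩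
      rw [(hφψ y (hrT hy)).2]
      exact hy
    · intro z hz
      exact ⟨D.ψ i z, ⟨z, hz, rfl⟩, (hφψ z (hrT hz)).2⟩
  have hψK : ∀ z ∈ Sq c r, D.ψ i z ∈ Kc := fun z hz => by rw [hKc]; exact ⟨z, hz, rfl⟩
  -- the open set
  obtain ⟨O, hO⟩ : ∃ O : Set M, O = D.U i ∩ D.φ i ⁻¹' {z : ℂ | |z.re - c.re| < r ∧
      |z.im - c.im| < r} := ⟨_, rfl⟩
  have hOo : IsOpen O := by
    rw [hO]
    exact (hD.contφ i).isOpen_inter_preimage (hD.openU i) (osq_open c r)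
  have hpO : p ∈ O := by
    rw [hO]
    refine ⟨hi, ?_⟩
    rw [mem_preimage, ← hc]
    constructor
    · rw [sub_self, abs_zero]; exact hr
    · rw [sub_self, abs_zero]; exact hr
  have hOK : O ⊆ Kc := by
    rw [hO, hKc]
    rintro x ⟨hx, hx2⟩
    exact ⟨D.φ i x, ⟨hx2.1.le, hx2.2.le⟩, hD.left i x hx⟩
  -- bounds
  have hdet : ContinuousOn (fun z => |(D.A i z).det|) (Sq c r) :=
    (ContinuousLinearMap.continuous_det.comp_continuousOn ((hD.contA i).mono hrT)).abs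
  obtain ⟨z0, hz0, hmin⟩ := (sq_cpt c r).exists_isMinOn ⟨c, hcSq⟩ hdet
  obtain ⟨z1, hz1, hmax⟩ := (sq_cpt c r).exists_isMaxOn ⟨c, hcSq⟩ hdet
  obtain ⟨z2, hz2, hmax2⟩ := (sq_cpt c r).exists_isMaxOn ⟨c, hcSq⟩ ((hD.contA i).mono hrT).norm
  obtain ⟨d0, hd0⟩ : ∃ d0 : ℝ, d0 = |(D.A i z0).det| := ⟨_, rfl⟩
  obtain ⟨d1, hd1⟩ : ∃ d1 : ℝ, d1 = |(D.A i z1).det| := ⟨_, rfl⟩
  obtain ⟨a1, ha1⟩ : ∃ a1 : ℝ, a1 = ‖D.A i z2‖ + 1 := ⟨_, rfl⟩
  have hd0p : 0 < d0 := by rw [hd0]; exact abs_pos.2 (hD.det i z0 (hrT hz0))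
  have hb0 : ∀ z ∈ Sq c r, d0 ≤ |(D.A i z).det| := fun z hz => by rw [hd0]; exact hmin hz
  have hb1 : ∀ z ∈ Sq c r, |(D.A i z).det| ≤ d1 := fun z hz => by rw [hd1]; exact hmax hz
  have hba : ∀ z ∈ Sq c r, ‖D.A i z‖ ≤ a1 := fun z hz => by
    have h : ‖D.A i z‖ ≤ ‖D.A i z2‖ := hmax2 hz
    rw [ha1]; linarith
  have hd1p : 0 < d1 := hd0p.trans_le ((hb0 c hcSq).trans (hb1 c hcSq))
  have ha1p : 0 < a1 := by
    have := norm_nonneg (D.A i z2)
    rw [ha1]; linarith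
  have hSqm : MeasurableSet (Sq c r) := (sq_closed c r).measurableSet
  have hSqf : volume (Sq c r) < ⊤ := (sq_cpt c r).measure_lt_top
  refine ⟨O, d1 * (4 * r ^ 2) * (a1 ^ 2 / d0), hOo, hpO,
    mul_pos (mul_pos hd1p (by positivity)) (by positivity), fun m hm => ?_⟩
  obtain ⟨κ, hκm, hκb, hκz, hκ⟩ := hSub c r m hr hm
  -- the new functions
  obtain ⟨k, hk⟩ : ∃ k : Fin (m * m) → M → ℝ, k = fun j => Kc.indicator fun x =>
      κ j (D.φ i x) / |(D.A i (D.φ i x)).det| := ⟨_, rfl⟩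
  have hkx : ∀ j, ∀ z ∈ Sq c r, k j (D.ψ i z) = κ j z / |(D.A i z).det| := by
    intro j z hz
    rw [hk]
    simp only
    rw [indicator_of_mem (hψK z hz), (hφψ z (hrT hz)).2]
  have hk0 : ∀ j, ∀ x ∉ Kc, k j x = 0 := by
    intro j x hx
    rw [hk]
    simp only
    rw [indicator_of_notMem hx]
  have hφK : ∀ x ∈ Kc, D.φ i x ∈ Sq c r := fun x hx => by rw [← hKφ]; exact ⟨x, hx, rfl⟩
  have hφc : ContinuousOn (D.φ i) Kc := (hD.contφ i).mono hKcU
  have hkm : ∀ j, AEStronglyMeasurable (k j) μ := by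
    intro j
    rw [hk]
    simp only
    rw [aestronglyMeasurable_indicator_iff hKcm]
    have e1 : AEMeasurable (D.φ i) (μ.restrict Kc) := hφc.aemeasurable hKcm
    have e2 : AEMeasurable (fun x => κ j (D.φ i x)) (μ.restrict Kc) :=
      (hκm j).comp_aemeasurable e1
    have e3 : AEMeasurable (fun x => |(D.A i (D.φ i x)).det|) (μ.restrict Kc) :=
      (hdet.comp hφc fun x hx => hφK x hx).aemeasurable hKcm
    exact (e2.div e3).aestronglyMeasurable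
  have hkb : ∀ j, ∃ C, ∀ x, ‖k j x‖ ≤ C := by
    intro j
    obtain ⟨C, hC⟩ := hκb j
    have hC0 : 0 ≤ C := (abs_nonneg _).trans (hC 0)
    refine ⟨C / d0, fun x => ?_⟩
    by_cases hx : x ∈ Kc
    · rw [hk]
      simp only
      rw [indicator_of_mem hx, norm_div, Real.norm_eq_abs, Real.norm_eq_abs, abs_abs]
      exact div_le_div₀ hC0 (hC _) hd0p (hb0 _ (hφK x hx))
    · rw [hk0 j x hx, norm_zero]
      exact div_nonneg hC0 hd0p.le
  refine ⟨fun j x => √d1 * k j x, fun j => ?_, fun F hF => ?_⟩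
  · obtain ⟨C, hC⟩ := hkb j
    exact (MemLp.of_bound (hkm j) C (Eventually.of_forall hC)).const_mul (√d1)
  -- the inequality
  obtain ⟨hFc, hgm, G, hGb⟩ := hG1 F hF
  have hI := (hInt M μ D hD i).2 Kc hKcm hKcU
  rw [hKφ] at hI
  have hfC : ContDiffOn ℝ 1 (fun z => F (D.ψ i z)) (D.T i) := hF i
  have hfc : ContinuousOn (fun z => F (D.ψ i z)) (Sq c r) := hfC.continuousOn.mono hrT
  have hf1 : ContinuousOn (fderiv ℝ (fun z => F (D.ψ i z))) (Sq c r) :=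
    (hfC.continuousOn_fderiv_of_isOpen (hD.openT i) le_rfl).mono hrT
  obtain ⟨CF, hCF⟩ : ∃ CF, ∀ x, ‖F x‖ ≤ CF := by
    obtain ⟨C, hC⟩ := isCompact_univ.exists_bound_of_continuousOn hFc.continuousOn
    exact ⟨C, fun x => hC x (mem_univ x)⟩
  have hF2 : Integrable (fun x => F x ^ 2) μ := by
    refine Integrable.of_bound (hFc.pow 2).aestronglyMeasurable (CF ^ 2)
      (Eventually.of_forall fun x => ?_)
    rw [norm_pow]
    exact pow_le_pow_left₀ (norm_nonneg _) (hCF x) 2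
  have hg2 : Integrable (fun x => ‖D.gr F x‖ ^ 2) μ := by
    refine Integrable.of_bound (hgm.norm.pow_const 2).aestronglyMeasurable (G ^ 2)
      (Eventually.of_forall fun x => ?_)
    rw [norm_pow, norm_norm]
    exact pow_le_pow_left₀ (norm_nonneg _) (hGb x) 2
  -- step 1
  have s1 : ∫ x in O, F x ^ 2 ∂μ ≤ ∫ x in Kc, F x ^ 2 ∂μ :=
    setIntegral_mono_set hF2.integrableOn (Eventually.of_forall fun x => sq_nonneg _)
      (Eventually.of_forall fun x hx => hOK hx)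
  -- step 2
  have s2 : ∫ x in Kc, F x ^ 2 ∂μ = ∫ z in Sq c r, F (D.ψ i z) ^ 2 * |(D.A i z).det| :=
    hI (fun x => F x ^ 2) (hFc.pow 2).aestronglyMeasurable
  have if2 : IntegrableOn (fun z => F (D.ψ i z) ^ 2) (Sq c r) :=
    (hfc.pow 2).integrableOn_compact (sq_cpt c r)
  have if2d : IntegrableOn (fun z => F (D.ψ i z) ^ 2 * |(D.A i z).det|) (Sq c r) :=
    ((hfc.pow 2).mul hdet).integrableOn_compact (sq_cpt c r)
  -- step 3
  have s3 : ∫ z in Sq c r, F (D.ψ i z) ^ 2 * |(D.A i z).det| ≤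
      d1 * ∫ z in Sq c r, F (D.ψ i z) ^ 2 := by
    rw [← integral_const_mul]
    refine setIntegral_mono_on if2d (if2.const_mul d1) hSqm fun z hz => ?_
    rw [mul_comm d1]
    exact mul_le_mul_of_nonneg_left (hb1 z hz) (sq_nonneg _)
  -- step 4
  have s4 := hκ (D.T i) (fun z => F (D.ψ i z)) (hD.openT i) hrT hfC
  -- step 5
  have hpt : ∀ z ∈ Sq c r, ‖fderiv ℝ (fun z => F (D.ψ i z)) z‖ ^ 2 ≤
      a1 ^ 2 / d0 * (‖D.gr F (D.ψ i z)‖ ^ 2 * |(D.A i z).det|) := by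
    intro z hz
    have e1 := hG2 F F hF hF i (D.ψ i z) (hφψ z (hrT hz)).1
    rw [real_inner_self_eq_norm_sq, real_inner_self_eq_norm_sq] at e1
    have e2 : D.gc i F (D.ψ i z) = grd (D.A i z) (fderiv ℝ (fun z => F (D.ψ i z)) z) := by
      unfold Data.gc Data.dc
      rw [(hφψ z (hrT hz)).2]
    have e3 := grd_le (D.A i z) (hD.det i z (hrT hz)) (fderiv ℝ (fun z => F (D.ψ i z)) z)
    rw [← e2] at e3
    have e4 : ‖fderiv ℝ (fun z => F (D.ψ i z)) z‖ ^ 2 ≤ (‖D.gc i F (D.ψ i z)‖ * a1) ^ 2 := by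
      refine pow_le_pow_left₀ (norm_nonneg _) (e3.trans ?_) 2
      exact mul_le_mul_of_nonneg_left (hba z hz) (norm_nonneg _)
    rw [mul_pow, ← e1] at e4
    refine e4.trans ?_
    have e5 : ‖D.gr F (D.ψ i z)‖ ^ 2 * a1 ^ 2 =
        a1 ^ 2 / d0 * (‖D.gr F (D.ψ i z)‖ ^ 2 * d0) := by
      field_simp
    rw [e5]
    refine mul_le_mul_of_nonneg_left ?_ (by positivity)
    exact mul_le_mul_of_nonneg_left (hb0 z hz) (sq_nonneg _)
  have hψc : ContinuousOn (D.ψ i) (Sq c r) := (hD.contψ i).mono hrT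
  have igd : IntegrableOn (fun z => ‖D.gr F (D.ψ i z)‖ ^ 2 * |(D.A i z).det|) (Sq c r) := by
    have : IsFiniteMeasure ((volume : Measure ℂ).restrict (Sq c r)) :=
      ⟨by rw [Measure.restrict_apply_univ]; exact hSqf⟩
    have m1 : AEMeasurable (fun z => ‖D.gr F (D.ψ i z)‖ ^ 2)
        ((volume : Measure ℂ).restrict (Sq c r)) :=
      (hgm.norm.pow_const 2).comp_aemeasurable (hψc.aemeasurable hSqm)
    have m2 : AEMeasurable (fun z => |(D.A i z).det|)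
        ((volume : Measure ℂ).restrict (Sq c r)) := hdet.aemeasurable hSqm
    refine Integrable.of_bound (m1.mul m2).aestronglyMeasurable (G ^ 2 * d1) ?_
    refine (ae_restrict_iff' hSqm).2 (Eventually.of_forall fun z hz => ?_)
    rw [norm_mul, norm_pow, norm_norm, Real.norm_eq_abs, abs_abs]
    exact mul_le_mul (pow_le_pow_left₀ (norm_nonneg _) (hGb _) 2) (hb1 z hz) (abs_nonneg _)
      (sq_nonneg _)
  have s5 : ∫ z in Sq c r, ‖fderiv ℝ (fun z => F (D.ψ i z)) z‖ ^ 2 ≤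
      a1 ^ 2 / d0 * ∫ x, ‖D.gr F x‖ ^ 2 ∂μ := by
    have e1 : ∫ z in Sq c r, ‖fderiv ℝ (fun z => F (D.ψ i z)) z‖ ^ 2 ≤
        ∫ z in Sq c r, a1 ^ 2 / d0 * (‖D.gr F (D.ψ i z)‖ ^ 2 * |(D.A i z).det|) :=
      setIntegral_mono_on ((hf1.norm.pow 2).integrableOn_compact (sq_cpt c r))
        (igd.const_mul _) hSqm hpt
    rw [integral_const_mul] at e1
    have e2 : ∫ x in Kc, ‖D.gr F x‖ ^ 2 ∂μ =
        ∫ z in Sq c r, ‖D.gr F (D.ψ i z)‖ ^ 2 * |(D.A i z).det| :=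
      hI (fun x => ‖D.gr F x‖ ^ 2) (hgm.norm.pow_const 2).aestronglyMeasurable
    have e3 : ∫ x in Kc, ‖D.gr F x‖ ^ 2 ∂μ ≤ ∫ x, ‖D.gr F x‖ ^ 2 ∂μ :=
      setIntegral_le_integral hg2 (Eventually.of_forall fun x => sq_nonneg _)
    rw [← e2] at e1
    exact e1.trans (mul_le_mul_of_nonneg_left e3 (by positivity))
  -- step 6
  have s6 : ∀ j, ∫ x, F x * (√d1 * k j x) ∂μ =
      √d1 * ∫ z in Sq c r, F (D.ψ i z) * κ j z := by
    intro j
    have e1 : ∫ x, F x * (√d1 * k j x) ∂μ = ∫ x in Kc, F x * (√d1 * k j x) ∂μ := by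
      rw [setIntegral_eq_integral_of_forall_compl_eq_zero]
      intro x hx
      rw [hk0 j x hx, mul_zero, mul_zero]
    have e2 : ∫ x in Kc, F x * (√d1 * k j x) ∂μ =
        ∫ z in Sq c r, (F (D.ψ i z) * (√d1 * k j (D.ψ i z))) * |(D.A i z).det| :=
      hI (fun x => F x * (√d1 * k j x))
        (hFc.aestronglyMeasurable.mul ((hkm j).const_mul (√d1)))
    rw [e1, e2, ← integral_const_mul]
    refine setIntegral_congr_fun hSqm fun z hz => ?_
    rw [hkx j z hz]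
    have e3 : |(D.A i z).det| ≠ 0 := (hd0p.trans_le (hb0 z hz)).ne'
    field_simp
  simp only [s6]
  have s7 : ∀ j, (√d1 * ∫ z in Sq c r, F (D.ψ i z) * κ j z) ^ 2 =
      d1 * (∫ z in Sq c r, F (D.ψ i z) * κ j z) ^ 2 := by
    intro j
    rw [mul_pow, Real.sq_sqrt hd1p.le]
  simp only [s7]
  rw [← Finset.mul_sum]
  have hm0 : (0 : ℝ) < m := by exact_mod_cast hm
  have s8 : 4 * r ^ 2 / m ^ 2 * (∫ z in Sq c r, ‖fderiv ℝ (fun z => F (D.ψ i z)) z‖ ^ 2) ≤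
      4 * r ^ 2 / m ^ 2 * (a1 ^ 2 / d0 * ∫ x, ‖D.gr F x‖ ^ 2 ∂μ) :=
    mul_le_mul_of_nonneg_left s5 (by positivity)
  calc ∫ x in O, F x ^ 2 ∂μ ≤ d1 * ∫ z in Sq c r, F (D.ψ i z) ^ 2 := by
        rw [s2] at s1
        exact s1.trans s3
    _ ≤ d1 * (4 * r ^ 2 / m ^ 2 * (a1 ^ 2 / d0 * ∫ x, ‖D.gr F x‖ ^ 2 ∂μ) +
        ∑ j, (∫ z in Sq c r, F (D.ψ i z) * κ j z) ^ 2) := by
        refine mul_le_mul_of_nonneg_left ?_ hd1p.le
        exact s4.trans (add_le_add s8 le_rfl)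
    _ = _ := by ring

end Pool.Agent.Y93.QE
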